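import Mathlib
import Pool.Agent.Work.MP_50f8f6_al.Interface

/-!
# Block M1: one HNN step
-/

set_option autoImplicit false

namespace FrobP
namespace M1
open GMet HNNExtension

/-- HNN extensions of countable groups are countable -/
theorem hnn_countable {G : Type} [Group G] [Countable G] {A B : Subgroup G} (φ : A ≃* B) :
    Countable (HNNExtension G A B φ) := by
  let f : List (G ⊕ Bool) → HNNExtension G A B φ := fun l =>
    (l.map (Sum.elim (fun g => HNNExtension.of g) (fun b => if b then t else t⁻¹))).prod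
  have happ : ∀ l l', f (l ++ l') = f l * f l' := by
    intro l l'
    simp [f]
  have hinv : ∀ l, ∃ l', f l' = (f l)⁻¹ := by
    intro l
    induction l with
    | nil => exact ⟨[], by simp [f]⟩
    | cons a l ih =>
      obtain ⟨l', hl'⟩ := ih
      have h1 : f (a :: l) = f [a] * f l := by
        rw [← happ]
        rfl
      have h2 : ∃ a' : G ⊕ Bool, f [a'] = (f [a])⁻¹ := by
        rcases a with g | b
        · exact ⟨Sum.inl g⁻¹, by simp [f]⟩
        · cases b with
          | true => exact ⟨Sum.inr false, by simp [f]⟩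
          | false => exact ⟨Sum.inr true, by simp [f]⟩
      obtain ⟨a', ha'⟩ := h2
      refine ⟨l' ++ [a'], ?_⟩
      rw [happ, h1, mul_inv_rev, hl', ha']
  have hsurj : Function.Surjective f := by
    intro x
    induction x using HNNExtension.induction_on with
    | of g => exact ⟨[Sum.inl g], by simp [f]⟩
    | t => exact ⟨[Sum.inr true], by simp [f]⟩
    | mul x y hx hy =>
      obtain ⟨l, hl⟩ := hx
      obtain ⟨l', hl'⟩ := hy
      exact ⟨l ++ l', by rw [happ, hl, hl']⟩
    | inv x hx =>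
      obtain ⟨l, hl⟩ := hx
      obtain ⟨l', hl'⟩ := hinv l
      exact ⟨l', by rw [hl', hl]⟩
  exact hsurj.countable

/-- The construction of the next group. -/
theorem mk {δ ℓ A' r p : ℕ} (hr1 : 1 ≤ r) (hℓ : 4 * ℓ + 4 ≤ A')
    (hBB : ∀ (K V : Type) [Group K] [GMet V] [MulAction K V],
      Good δ ℓ A' r p K V →
      ∃ (L : Type) (_ : Group L) (π : K →* L), Function.Surjective π ∧ (∀ x : L, x ^ p = 1) ∧
        (∀ x y : L, x ≠ 1 → x * y = y * x → y ∈ Subgroup.zpowers x) ∧
        (∀ g : K, π g = 1 → (∃ x : V, d x (g • x) ≤ 4) → g = 1) ∧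
        (∀ g : K, π g = 1 → g ∈ Subgroup.closure (Set.range fun x : K => x ^ p)))
    (hT : HNNTreeStmt) (hp : p.Prime) (hp3 : 3 ≤ p) (X : KGrp p) (A B : Subgroup X.G)
    (φ : A ≃* B)
    (h1 : ∀ g a : X.G, a ∈ A → a ≠ 1 → g * a * g⁻¹ ∈ A → g ∈ A)
    (h2 : ∀ g b : X.G, b ∈ B → b ≠ 1 → g * b * g⁻¹ ∈ B → g ∈ B)
    (h3 : ∀ g a : X.G, a ∈ A → g * a * g⁻¹ ∈ B → a = 1)
    (hφ : ∀ a : A, X.r (φ a : X.G) = X.r (a : X.G)) :
    ∃ (Y : KGrp p) (Φ : HNNExtension X.G A B φ →* Y.G),
      Y.h = Φ (of X.h) ∧ (∀ g : X.G, Y.r (Φ (of g)) = X.r g) ∧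
      (∀ g : X.G, Φ (of g) = 1 → g = 1) ∧
      (∀ g1 g2 : X.G, Φ (of g1 * t * of g2 * t⁻¹) = 1 →
        (of g1 * t * of g2 * t⁻¹ : HNNExtension X.G A B φ) = 1) := by
  obtain ⟨V, iV, iA, x0, hgood, hfix, hdt⟩ := hT X.G A B φ p hp hp3 X.expo X.cen h1 h2 h3
  have hG := hgood δ ℓ A' r hr1 hℓ
  obtain ⟨L, iL, π, hsurj, hexp, hcen, hker, hcl⟩ := hBB (HNNExtension X.G A B φ) V hG
  have := X.cnt
  have : Countable (HNNExtension X.G A B φ) := hnn_countable φ
  -- the homomorphism to the cyclic group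
  let rK : HNNExtension X.G A B φ →* Multiplicative (ZMod p) :=
    HNNExtension.lift X.r 1 (fun a => by rw [one_mul, mul_one, hφ a])
  have hrK : ∀ g : X.G, rK (of g) = X.r g := fun g => HNNExtension.lift_of _ _ _ g
  have hpow : ∀ c : Multiplicative (ZMod p), c ^ p = 1 := by
    intro c
    apply Multiplicative.toAdd.injective
    rw [toAdd_pow, toAdd_one, nsmul_eq_mul]
    simp
  have hkk : π.ker ≤ rK.ker := by
    intro g hg
    have h4 := hcl g (MonoidHom.mem_ker.1 hg)
    have h5 : Subgroup.closure (Set.range fun x : HNNExtension X.G A B φ => x ^ p) ≤ rK.ker := by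
      rw [Subgroup.closure_le]
      rintro _ ⟨x, rfl⟩
      rw [SetLike.mem_coe, MonoidHom.mem_ker]
      simp only
      rw [map_pow, hpow]
    exact h5 h4
  let rL : L →* Multiplicative (ZMod p) := π.liftOfSurjective hsurj ⟨rK, hkk⟩
  have hrL : ∀ g, rL (π g) = rK g := fun g =>
    MonoidHom.liftOfRightInverse_comp_apply _ _ _ _ _
  refine ⟨{ G := L, grp := iL, cnt := hsurj.countable, expo := hexp, cen := hcen, r := rL,
            h := π (of X.h), rh := ?_ }, π, rfl, ?_, ?_, ?_⟩
  · rw [hrL, hrK, X.rh]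
  · intro g
    show rL (π (of g)) = X.r g
    rw [hrL, hrK]
  · intro g hg
    have h6 := hker (of g) hg ⟨x0, by rw [hfix, d_self]; omega⟩
    have h7 : (of g : HNNExtension X.G A B φ) = of 1 := by rw [h6, map_one]
    exact HNNExtension.of_injective φ h7
  · intro g1 g2 hg
    apply hker _ hg
    refine ⟨x0, ?_⟩
    have hd := hG.isom
    -- displacement of x0
    have e1 : d ((t : HNNExtension X.G A B φ)⁻¹ • x0) x0 ≤ 1 := by
      have := hd (t : HNNExtension X.G A B φ) ((t : HNNExtension X.G A B φ)⁻¹ • x0) x0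
      rw [smul_inv_smul] at this
      omega
    have e2 : d x0 ((of g2 : HNNExtension X.G A B φ) • (t : HNNExtension X.G A B φ)⁻¹ • x0) ≤ 1 := by
      have := hd (of g2 : HNNExtension X.G A B φ) x0 ((t : HNNExtension X.G A B φ)⁻¹ • x0)
      rw [hfix] at this
      rw [this, GMet.symm]
      exact e1
    have e3 : d ((t : HNNExtension X.G A B φ)⁻¹ • x0)
        ((of g2 : HNNExtension X.G A B φ) • (t : HNNExtension X.G A B φ)⁻¹ • x0) ≤ 2 := by
      have := tri ((t : HNNExtension X.G A B φ)⁻¹ • x0) x0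
        ((of g2 : HNNExtension X.G A B φ) • (t : HNNExtension X.G A B φ)⁻¹ • x0)
      omega
    have e4 : d x0 ((t : HNNExtension X.G A B φ) •
        ((of g2 : HNNExtension X.G A B φ) • (t : HNNExtension X.G A B φ)⁻¹ • x0)) ≤ 2 := by
      have := hd (t : HNNExtension X.G A B φ) ((t : HNNExtension X.G A B φ)⁻¹ • x0)
        ((of g2 : HNNExtension X.G A B φ) • (t : HNNExtension X.G A B φ)⁻¹ • x0)
      rw [smul_inv_smul] at this
      omega
    have e5 : d x0 ((of g1 : HNNExtension X.G A B φ) • (t : HNNExtension X.G A B φ) •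
        ((of g2 : HNNExtension X.G A B φ) • (t : HNNExtension X.G A B φ)⁻¹ • x0)) ≤ 2 := by
      have := hd (of g1 : HNNExtension X.G A B φ) x0 ((t : HNNExtension X.G A B φ) •
        ((of g2 : HNNExtension X.G A B φ) • (t : HNNExtension X.G A B φ)⁻¹ • x0))
      rw [hfix] at this
      omega
    rw [mul_smul, mul_smul, mul_smul]
    omega

/-- A homomorphism to the cyclic group of order `p` is injective on `⟨g⟩` if `r g` is the
generator. -/
theorem inj_on {p : ℕ} (hp : p.Prime) (X : KGrp p) {g : X.G}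
    (hg : X.r g = Multiplicative.ofAdd 1) {a b : X.G} (ha : a ∈ Subgroup.zpowers g)
    (hb : b ∈ Subgroup.zpowers g) (hab : X.r a = X.r b) : a = b := by
  have := Fact.mk hp
  have key : ∀ c ∈ Subgroup.zpowers g, X.r c = 1 → c = 1 := by
    intro c hc h
    obtain ⟨i, rfl⟩ := Subgroup.mem_zpowers_iff.1 hc
    rw [map_zpow, hg] at h
    have h1 : ((i : ℤ) : ZMod p) = 0 := by
      have h2 := congrArg Multiplicative.toAdd h
      rw [toAdd_zpow, toAdd_ofAdd, toAdd_one, zsmul_eq_mul, mul_one] at h2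
      exact h2
    rw [ZMod.intCast_zmod_eq_zero_iff_dvd] at h1
    obtain ⟨j, rfl⟩ := h1
    rw [zpow_mul, zpow_natCast, X.expo, one_zpow]
  have h1 : X.r (a * b⁻¹) = 1 := by rw [map_mul, map_inv, hab, mul_inv_cancel]
  have h2 := key (a * b⁻¹) (Subgroup.mul_mem _ ha (Subgroup.inv_mem _ hb)) h1
  exact mul_inv_eq_one.1 h2

theorem conj_mem {p : ℕ} (hp : p.Prime) (X : KGrp p) {g : X.G}
    (hg : X.r g = Multiplicative.ofAdd 1) (y a : X.G) (ha : a ∈ Subgroup.zpowers g)
    (ha1 : a ≠ 1) (h : y * a * y⁻¹ ∈ Subgroup.zpowers g) : y ∈ Subgroup.zpowers g := by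
  have h1 : X.r (y * a * y⁻¹) = X.r a := by
    rw [map_mul, map_mul, map_inv, mul_comm (X.r y), mul_assoc, mul_inv_cancel, mul_one]
  have h2 := inj_on hp X hg h ha h1
  have h3 : a * y = y * a := by
    rw [mul_inv_eq_iff_eq_mul] at h2
    exact h2.symm
  have h4 := X.cen a y ha1 h3
  have h5 : Subgroup.zpowers a ≤ Subgroup.zpowers g := by
    rw [Subgroup.zpowers_le]
    exact ha
  exact h5 h4

/-- the cyclic group as a `KGrp` -/
def cyc (p : ℕ) (hp : p.Prime) : KGrp p where
  G := Multiplicative (ZMod p)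
  grp := inferInstance
  cnt := by
    have : NeZero p := ⟨hp.ne_zero⟩
    exact Finite.to_countable
  expo := by
    intro c
    apply Multiplicative.toAdd.injective
    rw [toAdd_pow, toAdd_one, nsmul_eq_mul]
    simp
  cen := by
    intro x y hx _
    have := Fact.mk hp
    have h1 : Nat.card (Multiplicative (ZMod p)) = p := by
      rw [Nat.card_congr Multiplicative.toAdd, Nat.card_zmod]
    exact mem_zpowers_of_prime_card h1 hx
  r := MonoidHom.id _
  h := Multiplicative.ofAdd 1
  rh := rfl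

/-- a homomorphism that separates the commutator -/
theorem comm_ne (p : ℕ) (hp3 : 3 ≤ p) (φ : (⊥ : Subgroup (Multiplicative (ZMod p))) ≃*
      (⊥ : Subgroup (Multiplicative (ZMod p)))) :
    (of (Multiplicative.ofAdd (1 : ZMod p)) * t * of (Multiplicative.ofAdd (-1 : ZMod p)) * t⁻¹ :
      HNNExtension (Multiplicative (ZMod p)) ⊥ ⊥ φ) ≠ 1 := by
  classical
  let τ : Multiplicative (ZMod p) →* Equiv.Perm (ZMod p) :=
    { toFun := fun x => Equiv.addLeft (Multiplicative.toAdd x)
      map_one' := by ext a; simp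
      map_mul' := by intro a b; ext c; simp }
  let w : Equiv.Perm (ZMod p) := Equiv.swap 0 1
  let F : HNNExtension (Multiplicative (ZMod p)) ⊥ ⊥ φ →* Equiv.Perm (ZMod p) :=
    HNNExtension.lift τ w (fun a => by
      have h1 : (a : Multiplicative (ZMod p)) = 1 := Subgroup.mem_bot.1 a.2
      have h2 : ((φ a : (⊥ : Subgroup (Multiplicative (ZMod p)))) : Multiplicative (ZMod p)) = 1 :=
        Subgroup.mem_bot.1 (φ a).2
      rw [h1, h2, map_one, one_mul, mul_one])
  intro h
  have h1 := congrArg F h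
  simp only [map_mul, map_inv, map_one] at h1
  have e1 : F (of (Multiplicative.ofAdd (1 : ZMod p))) = τ (Multiplicative.ofAdd 1) :=
    HNNExtension.lift_of _ _ _ _
  have e2 : F (of (Multiplicative.ofAdd (-1 : ZMod p))) = τ (Multiplicative.ofAdd (-1)) :=
    HNNExtension.lift_of _ _ _ _
  have e3 : F t = w := HNNExtension.lift_t _ _ _
  rw [e1, e2, e3] at h1
  -- evaluate at `1`
  have h2 := congrArg (fun σ : Equiv.Perm (ZMod p) => σ 1) h1
  simp only [Equiv.Perm.mul_apply, Equiv.Perm.one_apply] at h2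
  have h3 : (w⁻¹ : Equiv.Perm (ZMod p)) 1 = 0 := by
    show (Equiv.swap (0 : ZMod p) 1)⁻¹ 1 = 0
    rw [Equiv.swap_inv, Equiv.swap_apply_right]
  rw [h3] at h2
  have h4 : τ (Multiplicative.ofAdd (-1)) 0 = -1 := by
    show -1 + (0 : ZMod p) = -1
    rw [add_zero]
  rw [h4] at h2
  have hne1 : (-1 : ZMod p) ≠ 0 := by
    intro h5
    have h6 : ((1 : ℕ) : ZMod p) = 0 := by
      push_cast
      have := neg_eq_zero.1 h5
      exact this
    rw [ZMod.natCast_eq_zero_iff] at h6
    have := Nat.le_of_dvd (by norm_num) h6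
    omega
  have hne2 : (-1 : ZMod p) ≠ 1 := by
    intro h5
    have h6 : ((2 : ℕ) : ZMod p) = 0 := by
      push_cast
      have : (1 : ZMod p) + 1 = 0 := by
        nth_rewrite 1 [← h5]
        ring
      rw [← this]
      norm_num
    rw [ZMod.natCast_eq_zero_iff] at h6
    have := Nat.le_of_dvd (by norm_num) h6
    omega
  have h5 : w (-1) = -1 := Equiv.swap_apply_of_ne_of_ne hne1 hne2
  rw [h5] at h2
  have h6 : τ (Multiplicative.ofAdd 1) (-1) = 0 := by
    show (1 : ZMod p) + -1 = 0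
    ring
  rw [h6] at h2
  have h7 : ((1 : ℕ) : ZMod p) = 0 := by
    push_cast
    exact h2.symm
  rw [ZMod.natCast_eq_zero_iff] at h7
  have := Nat.le_of_dvd (by norm_num) h7
  omega

end M1

open M1 GMet HNNExtension in
theorem oneStep (hB : BBStmt) (hT : HNNTreeStmt) : OneStepStmt := by
  classical
  obtain ⟨δ, ℓ, A', r, p0, hr1, hℓ, hp03, hBB⟩ := hB
  refine ⟨p0, fun p hp hpp => ⟨?_, ?_⟩⟩
  · intro X g hg
    have := Fact.mk hp
    by_cases hconj : ∃ u : X.G, u * g * u⁻¹ = X.h
    · obtain ⟨u, hu⟩ := hconj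
      exact ⟨X, ⟨MonoidHom.id _, fun _ _ h => h, fun _ => rfl, rfl⟩, u, hu⟩
    · have hg1 : g ≠ 1 := by
        rintro rfl
        rw [map_one] at hg
        have h1 := congrArg Multiplicative.toAdd hg
        rw [toAdd_one, toAdd_ofAdd] at h1
        exact zero_ne_one h1
      have hh1 : X.h ≠ 1 := by
        intro h
        have hg' := X.rh
        rw [h, map_one] at hg'
        have h1 := congrArg Multiplicative.toAdd hg'
        rw [toAdd_one, toAdd_ofAdd] at h1
        exact zero_ne_one h1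
      have hog : orderOf g = p := orderOf_eq_prime (X.expo g) hg1
      have hoh : orderOf X.h = p := orderOf_eq_prime (X.expo X.h) hh1
      let g' : Subgroup.zpowers g := ⟨g, Subgroup.mem_zpowers g⟩
      let h' : Subgroup.zpowers X.h := ⟨X.h, Subgroup.mem_zpowers X.h⟩
      have hgen : ∀ x : Subgroup.zpowers g, x ∈ Subgroup.zpowers g' := by
        rintro ⟨x, hx⟩
        obtain ⟨i, rfl⟩ := Subgroup.mem_zpowers_iff.1 hx
        exact Subgroup.mem_zpowers_iff.2 ⟨i, Subtype.ext (by simp [g'])⟩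
      have hgen' : ∀ x : Subgroup.zpowers X.h, x ∈ Subgroup.zpowers h' := by
        rintro ⟨x, hx⟩
        obtain ⟨i, rfl⟩ := Subgroup.mem_zpowers_iff.1 hx
        exact Subgroup.mem_zpowers_iff.2 ⟨i, Subtype.ext (by simp [h'])⟩
      have hord : orderOf g' = orderOf h' := by
        rw [← Subgroup.orderOf_coe, ← Subgroup.orderOf_coe]
        show orderOf g = orderOf X.h
        rw [hog, hoh]
      let φ : Subgroup.zpowers g ≃* Subgroup.zpowers X.h := mulEquivOfOrderOfEq hgen hgen' hord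
      have hφg : φ g' = h' := mulEquivOfOrderOfEq_apply_gen hgen hgen' hord
      have hφr : ∀ a : Subgroup.zpowers g, X.r (φ a : X.G) = X.r (a : X.G) := by
        intro a
        obtain ⟨i, rfl⟩ := Subgroup.mem_zpowers_iff.1 (hgen a)
        rw [map_zpow, hφg, Subgroup.coe_zpow, Subgroup.coe_zpow, map_zpow, map_zpow]
        show X.r X.h ^ i = X.r g ^ i
        rw [X.rh, hg]
      have h3 : ∀ y a : X.G, a ∈ Subgroup.zpowers g → y * a * y⁻¹ ∈ Subgroup.zpowers X.h →
          a = 1 := by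
        intro y a ha hya
        by_contra ha1
        have hr : X.r (y * a * y⁻¹) = X.r a := by
          rw [map_mul, map_mul, map_inv, mul_comm (X.r y), mul_assoc, mul_inv_cancel, mul_one]
        obtain ⟨i, hi⟩ := Subgroup.mem_zpowers_iff.1 ha
        -- `g` is a power of `a`
        have hga : g ∈ Subgroup.zpowers a := by
          apply X.cen a g ha1
          rw [← hi]
          exact ((Commute.refl g).zpow_left i).eq
        obtain ⟨k, hk⟩ := Subgroup.mem_zpowers_iff.1 hga
        apply hconj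
        refine ⟨y, ?_⟩
        have hyk : y * g * y⁻¹ = (y * a * y⁻¹) ^ k := by
          rw [← hk, conj_zpow]
        have hmem : y * g * y⁻¹ ∈ Subgroup.zpowers X.h := by
          rw [hyk]
          exact Subgroup.zpow_mem _ hya k
        apply inj_on hp X X.rh hmem (Subgroup.mem_zpowers X.h)
        rw [map_mul, map_mul, map_inv, mul_comm (X.r y), mul_assoc, mul_inv_cancel, mul_one,
          hg, X.rh]
      obtain ⟨Y, Φ, hYh, hYr, hYinj, -⟩ := M1.mk hr1 hℓ
        (fun K V _ _ _ hG => hBB p hp hpp K V hG) hT hp (by omega) X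
        (Subgroup.zpowers g) (Subgroup.zpowers X.h) φ
        (fun y a ha ha1 hy => conj_mem hp X hg y a ha ha1 hy)
        (fun y a ha ha1 hy => conj_mem hp X X.rh y a ha ha1 hy) h3 hφr
      refine ⟨Y, ⟨Φ.comp (of : X.G →* HNNExtension X.G _ _ φ), ?_, hYr, hYh.symm⟩, Φ t, ?_⟩
      · rw [injective_iff_map_eq_one]
        exact hYinj
      · show Φ t * Φ (of g) * (Φ t)⁻¹ = Y.h
        have e1 : (of ((φ g' : Subgroup.zpowers X.h) : X.G) : HNNExtension X.G _ _ φ) =
            t * of ((g' : Subgroup.zpowers g) : X.G) * t⁻¹ := equiv_eq_conj g'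
        rw [hφg] at e1
        rw [hYh, ← map_mul, ← map_inv, ← map_mul]
        exact congrArg Φ e1.symm
  · obtain ⟨Y, Φ, hYh, hYr, hYinj, hYc⟩ := M1.mk hr1 hℓ
        (fun K V _ _ _ hG => hBB p hp hpp K V hG) hT hp (by omega) (cyc p hp) ⊥ ⊥
        (MulEquiv.refl _)
        (fun y a ha ha1 _ => absurd (Subgroup.mem_bot.1 ha) ha1)
        (fun y a ha ha1 _ => absurd (Subgroup.mem_bot.1 ha) ha1)
        (fun y a ha _ => Subgroup.mem_bot.1 ha) (fun a => rfl)
    refine ⟨Y, Φ (of (cyc p hp).h * t * of (cyc p hp).h⁻¹ *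
      (t : HNNExtension (cyc p hp).G ⊥ ⊥ (MulEquiv.refl _))⁻¹), ?_, ?_⟩
    · rw [map_mul, map_mul, map_mul, map_mul, map_mul, map_mul, hYr, hYr, map_inv, map_inv, map_inv]
      rw [mul_right_comm ((cyc p hp).r (cyc p hp).h) (Y.r (Φ t)), mul_inv_cancel, one_mul,
        mul_inv_cancel]
    · intro h
      exact comm_ne p (by omega) (MulEquiv.refl _) (hYc _ _ h)

end FrobP
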