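import Mathlib
import Pool.Agent.Work.MP_50f8f6_al.Interface
import Pool.Agent.Work.MP_50f8f6_al.Basic
import Pool.Agent.Work.MP_50f8f6_al.Proj
import Pool.Agent.Work.MP_50f8f6_al.ConeGeo

/-!
# Block S3: the quotient of the cone-off
-/

set_option autoImplicit false

namespace FrobP
open GMet

namespace S3

variable {G V ι : Type} [Group G] [GMet V] [MulAction G V] [MulAction G ι] [IsomAct G V]

omit [IsomAct G V] in
/-- `Bs` is equivariant -/
theorem bs_smul (C : ConeData V ι) [ConeAct G C] (g : G) (v : Cone C) {x : V} (hx : x ∈ v.Bs) :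
    g • x ∈ (g • v).Bs := by
  obtain ⟨v, hv⟩ := v
  cases v with
  | base y =>
    have h : x = y := hx
    subst h
    rfl
  | lev i y k =>
    have h : x = y := hx
    subst h
    rfl
  | apex i =>
    have h : x ∈ C.Y i := hx
    exact ConeAct.mem g i x h

theorem mem_NN {H : ι → Subgroup G} {i : ι} {h : G} (hh : h ∈ H i) : h ∈ NN H :=
  Subgroup.subset_closure (Set.mem_iUnion.2 ⟨i, hh⟩)

/-- rotating about an apex between `v` and `w` -/
theorem rotate (C : ConeData V ι) [ConeAct G C] {i : ι} {h : G} (hi : h • i = i) {v w : Cone C}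
    (hb : Bt v (Cone.apex C i) w) : d v (h • w) ≤ d v w := by
  have h1 : h • Cone.apex C i = Cone.apex C i := by rw [Cone.smul_apex, hi]
  have h2 : d (Cone.apex C i) (h • w) = d (Cone.apex C i) w := by
    have := IsomAct.isom h (Cone.apex C i) w
    rw [h1] at this
    exact this
  have := tri v (Cone.apex C i) (h • w)
  unfold Bt at hb
  omega

/-- the polygon lemma -/
theorem pc (C : ConeData V ι) [ConeAct G C] (H : ι → Subgroup G) {θ T τ K0 : ℕ}
    (hR : Rot G C H θ T) (hE : E2 C K0) (hτ : 4 * (K0 * (2 ^ C.ρ * C.R)) < τ) (x : V) :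
    ∀ n : G, Red C.Y H Set.univ τ x n → ∀ v : ℕ → Cone C, x ∈ (v 0).Bs → v 4 = n • v 0 →
      (∀ t < 4, d (v t) (v (t + 1)) = d (QM.mk (NN H) (v t)) (QM.mk (NN H) (v (t + 1)))) →
      ∃ m : ℕ → G, m 0 = 1 ∧ (∀ t, m t ∈ NN H) ∧ m 4 • v 4 = v 0 ∧
        ∀ t < 4, d (m t • v t) (m (t + 1) • v (t + 1)) =
          d (QM.mk (NN H) (v t)) (QM.mk (NN H) (v (t + 1))) := by
  classical
  intro n hn
  induction hn with
  | one =>
    intro v _ hv4 hside
    refine ⟨fun _ => 1, rfl, fun _ => (NN H).one_mem, ?_, ?_⟩
    · simp only [one_smul]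
      rw [hv4, one_smul]
    · intro t ht
      simp only [one_smul]
      exact hside t ht
  | step n h i _ hh hprd _ ih =>
    intro v hx hv4 hside
    -- some side passes through the apex
    have hex : ∃ j < 4, Bt (v j) (Cone.apex C i) (v (j + 1)) := by
      by_contra hcon
      push Not at hcon
      have hne : ∀ j < 4, v j ≠ Cone.apex C i ∧ v (j + 1) ≠ Cone.apex C i := by
        intro j hj
        constructor
        · intro he
          apply hcon j hj
          rw [he]
          exact Bt.left _ _
        · intro he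
          apply hcon j hj
          rw [he]
          exact Bt.right _ _
      obtain ⟨x1, hx1⟩ := Cone.bs_nonempty C (v 1)
      obtain ⟨x2, hx2⟩ := Cone.bs_nonempty C (v 2)
      obtain ⟨x3, hx3⟩ := Cone.bs_nonempty C (v 3)
      have hx4 : n • x ∈ (v 4).Bs := by
        rw [hv4]
        exact bs_smul C n (v 0) hx
      have e0 := hE i (v 0) (v 1) (hne 0 (by omega)).1 (hne 0 (by omega)).2 (hcon 0 (by omega))
        x hx x1 hx1
      have e1 := hE i (v 1) (v 2) (hne 1 (by omega)).1 (hne 1 (by omega)).2 (hcon 1 (by omega))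
        x1 hx1 x2 hx2
      have e2 := hE i (v 2) (v 3) (hne 2 (by omega)).1 (hne 2 (by omega)).2 (hcon 2 (by omega))
        x2 hx2 x3 hx3
      have e3 := hE i (v 3) (v 4) (hne 3 (by omega)).1 (hne 3 (by omega)).2 (hcon 3 (by omega))
        x3 hx3 (n • x) hx4
      have t1 := hR.fam.prd_tri i x x1 (n • x)
      have t2 := hR.fam.prd_tri i x1 x2 (n • x)
      have t3 := hR.fam.prd_tri i x2 x3 (n • x)
      omega
    obtain ⟨j, hj, hbt⟩ := hex
    have hhN : h ∈ NN H := mem_NN hh
    have hfix : h • i = i := hR.fix i h hh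
    let v' : ℕ → Cone C := fun t => if t ≤ j then v t else h • v t
    have hv'0 : v' 0 = v 0 := by simp [v']
    have hv'4 : v' 4 = (h * n) • v' 0 := by
      have h1 : ¬ (4 ≤ j) := by omega
      simp only [v', if_neg h1, Nat.zero_le, if_true]
      rw [hv4, mul_smul]
    have hmk : ∀ t, QM.mk (NN H) (v' t) = QM.mk (NN H) (v t) := by
      intro t
      by_cases ht : t ≤ j
      · simp only [v', if_pos ht]
      · simp only [v', if_neg ht]
        exact QM.mk_smul (NN H) hhN (v t)
    have hside' : ∀ t < 4, d (v' t) (v' (t + 1)) =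
        d (QM.mk (NN H) (v' t)) (QM.mk (NN H) (v' (t + 1))) := by
      intro t ht
      rw [hmk, hmk]
      by_cases h1 : t + 1 ≤ j
      · have h2 : t ≤ j := by omega
        simp only [v', if_pos h1, if_pos h2]
        exact hside t ht
      · by_cases h2 : t ≤ j
        · have h3 : t = j := by omega
          subst h3
          simp only [v', if_neg h1, le_refl, if_true]
          have e1 := rotate C hfix hbt
          have e2 := hside t ht
          have e3 := QM.d_mk_le (NN H) (v t) (h • v (t + 1))
          rw [QM.mk_smul (NN H) hhN] at e3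
          omega
        · simp only [v', if_neg h1, if_neg h2]
          rw [IsomAct.isom]
          exact hside t ht
    obtain ⟨m, hm0, hmN, hm4, hms⟩ := ih v' (by rw [hv'0]; exact hx) hv'4 hside'
    refine ⟨fun t => if t ≤ j then m t else m t * h, ?_, ?_, ?_, ?_⟩
    · simp [hm0]
    · intro t
      simp only
      split_ifs
      · exact hmN t
      · exact (NN H).mul_mem (hmN t) hhN
    · have h1 : ¬ (4 ≤ j) := by omega
      simp only [if_neg h1]
      rw [mul_smul]
      simp only [v', if_neg h1, Nat.zero_le, if_true] at hm4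
      exact hm4
    · have hkey : ∀ t, (if t ≤ j then m t else m t * h) • v t = m t • v' t := by
        intro t
        by_cases ht : t ≤ j
        · simp only [v', if_pos ht]
        · simp only [v', if_neg ht]
          rw [mul_smul]
      intro t ht
      simp only
      rw [hkey t, hkey (t + 1), hms t ht, hmk, hmk]

end S3

open S3

theorem s3a : S3aStmt := by
  intro G V ι _ _ _ _ _ C _ H θ T τ s K0 hR hAll hE hslim hτ
  intro xb yb wb zb hz
  obtain ⟨x, rfl⟩ := QM.mk_surj (NN H) xb
  obtain ⟨z, hz1, hz2⟩ := QM.exists_tight (NN H) x zb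
  obtain ⟨y, hy1, hy2⟩ := QM.exists_tight (NN H) z yb
  obtain ⟨w, hw1, hw2⟩ := QM.exists_tight (NN H) y wb
  obtain ⟨x', hx1, hx2⟩ := QM.exists_tight (NN H) w (QM.mk (NN H) x)
  subst hz1
  subst hy1
  subst hw1
  obtain ⟨n, hn, hnx⟩ := (QM.mk_eq_iff (NN H)).1 hx1.symm
  obtain ⟨a, ha⟩ := Cone.bs_nonempty C x
  let v : ℕ → Cone C := fun t =>
    if t = 0 then x else if t = 1 then z else if t = 2 then y else if t = 3 then w else x'
  obtain ⟨m, hm0, hmN, hm4, hms⟩ := pc C H hR hE hτ a n (hAll n hn a) v (by simpa [v] using ha)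
    (by simp [v, hnx]) (by
      intro t ht
      have h4 : t = 0 ∨ t = 1 ∨ t = 2 ∨ t = 3 := by omega
      rcases h4 with h | h | h | h <;> subst h
      · simp only [v]; exact hz2
      · simp only [v]; exact hy2
      · simp only [v]; exact hw2
      · show d w x' = d (QM.mk (NN H) w) (QM.mk (NN H) x')
        rw [hx1]
        exact hx2)
  have e0 : d x (m 1 • z) = d (QM.mk (NN H) x) (QM.mk (NN H) z) := by
    have := hms 0 (by omega)
    simpa [v, hm0] using this
  have e1 : d (m 1 • z) (m 2 • y) = d (QM.mk (NN H) z) (QM.mk (NN H) y) := by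
    have := hms 1 (by omega)
    simpa [v] using this
  have e2 : d (m 2 • y) (m 3 • w) = d (QM.mk (NN H) y) (QM.mk (NN H) w) := by
    have := hms 2 (by omega)
    simpa [v] using this
  have e3 : d (m 3 • w) x = d (QM.mk (NN H) w) (QM.mk (NN H) x) := by
    have := hms 3 (by omega)
    rw [hm4] at this
    simp only [v] at this
    rw [← hx1]
    simpa using this
  have c1 : QM.mk (NN H) (m 1 • z) = QM.mk (NN H) z := QM.mk_smul _ (hmN 1) z
  have c2 : QM.mk (NN H) (m 2 • y) = QM.mk (NN H) y := QM.mk_smul _ (hmN 2) y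
  have c3 : QM.mk (NN H) (m 3 • w) = QM.mk (NN H) w := QM.mk_smul _ (hmN 3) w
  have hbt : Bt x (m 1 • z) (m 2 • y) := by
    unfold Bt at hz ⊢
    have t1 := tri x (m 1 • z) (m 2 • y)
    have t2 := QM.d_mk_le (NN H) x (m 2 • y)
    rw [c2] at t2
    omega
  obtain ⟨u, hu, hus⟩ := hslim x (m 2 • y) (m 3 • w) (m 1 • z) hbt
  refine ⟨QM.mk (NN H) u, ?_, ?_⟩
  · rcases hu with hu | hu
    · left
      unfold Bt at hu ⊢
      have t1 := QM.d_mk_le (NN H) x u
      have t2 := QM.d_mk_le (NN H) u (m 3 • w)
      rw [c3] at t2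
      have t3 := tri (QM.mk (NN H) x) (QM.mk (NN H) u) (QM.mk (NN H) w)
      have t4 := GMet.symm (m 3 • w) x
      have t5 := GMet.symm (QM.mk (NN H) w) (QM.mk (NN H) x)
      omega
    · right
      unfold Bt at hu ⊢
      have t1 := QM.d_mk_le (NN H) (m 3 • w) u
      have t2 := QM.d_mk_le (NN H) u (m 2 • y)
      rw [c3] at t1
      rw [c2] at t2
      have t3 := tri (QM.mk (NN H) w) (QM.mk (NN H) u) (QM.mk (NN H) y)
      have t4 := GMet.symm (m 2 • y) (m 3 • w)
      have t5 := GMet.symm (QM.mk (NN H) y) (QM.mk (NN H) w)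
      omega
  · have t1 := QM.d_mk_le (NN H) (m 1 • z) u
    rw [c1] at t1
    omega

theorem s3b : S3bStmt := by
  intro G V ι _ _ _ _ _ C _ H θ T τ hR hAll hθ n hn i hni
  obtain ⟨y, hy⟩ := C.hY i
  have key : ∀ n : G, Red C.Y H Set.univ τ y n → n • i = i → n ∈ H i := by
    intro n hred
    induction hred with
    | one => intro _; exact (H i).one_mem
    | step n h j _ hh hprd _ ih =>
      intro hni
      have hji : j = i := by
        by_contra hne
        have h1 : n • y ∈ C.Y i := by
          have := ConeAct.mem (C := C) n i y hy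
          rwa [hni] at this
        have := hR.fam.small j i hne y hy (n • y) h1
        omega
      subst hji
      have h2 : h • j = j := hR.fix j h hh
      have h3 := ih (by rw [mul_smul, hni, h2])
      have h4 := (H j).mul_mem ((H j).inv_mem hh) h3
      rwa [inv_mul_cancel_left] at h4
  exact key n (hAll n hn y) hni

theorem s3c : S3cStmt := by
  intro G V ι _ _ _ _ _ C _ H θ T τ hR hAll n hn hn1 x
  have hred := hAll n hn x
  cases hred with
  | one => exact absurd rfl hn1
  | step _ h i _ hh hprd _ =>
    have := hR.fam.prd_lip i x (n • x)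
    omega

theorem s3d : S3dStmt := by
  intro G V ι _ _ _ _ _ C _ H θ T τ K0 hR hAll hE x y hxy n hn
  have key : ∀ n : G, Red C.Y H Set.univ τ y n →
      d (Cone.base C x) (Cone.base C y) ≤ d (Cone.base C x) (Cone.base C (n • y)) := by
    intro n hred
    induction hred with
    | one => rw [one_smul]
    | step n h i _ hh hprd _ ih =>
      have hb : Bt (Cone.base C x) (Cone.apex C i) (Cone.base C (n • y)) := by
        by_contra hcon
        have h1 : Cone.base C x ≠ Cone.apex C i := by
          intro he
          have : (Cone.base C x).1 = (Cone.apex C i).1 := by rw [he]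
          simp [Cone.base, Cone.apex] at this
        have h2 : Cone.base C (n • y) ≠ Cone.apex C i := by
          intro he
          have : (Cone.base C (n • y)).1 = (Cone.apex C i).1 := by rw [he]
          simp [Cone.base, Cone.apex] at this
        have h3 := hE i _ _ h1 h2 hcon x rfl (n • y) rfl
        have h4 := hR.fam.prd_tri i y x (n • y)
        have h5 := hxy i
        have h6 : prd (C.Y i) y x = prd (C.Y i) x y := prd_symm _ _
        omega
      have h7 := rotate C (hR.fix i h hh) hb
      rw [Cone.smul_base, ← mul_smul] at h7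
      exact ih.trans h7
  exact key n (hAll n hn y)

end FrobP
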