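import Pool.Agent.Work.MP_50f8f6_al.Repro
import Pool.Agent.Work.MP_50f8f6_al.Toolkit

/-!
# MP_50f8f6_al, block J (dich): the dichotomy for the quotient action
-/

namespace FrobP
open GMet

namespace JH

variable {G V : Type} [Group G] [GMet V] [MulAction G V] [IsomAct G V]
  {δ ℓ A r p c K0 ρ R θ τ : ℕ} {hρ : 1 ≤ ρ} {hR : 1 ≤ R}


/-- displacement by any generator -/
theorem gen_disp {E : Ax G V δ} {x : V} {e : G} {D : ℕ} (he : E.1 = Subgroup.zpowers e)
    (hx : ∃ e' : G, E.1 = Subgroup.zpowers e' ∧ d x (e' • x) ≤ D) : d x (e • x) ≤ D := by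
  obtain ⟨e', he', hx⟩ := hx
  obtain ⟨e0, hE1, hE2, hE3, -⟩ := E.2
  have hinf : ¬ IsOfFinOrder e := by
    rcases (Subgroup.zpowers_eq_zpowers_iff hE3).1 (hE1.symm.trans he) with h | h
    · rw [← h]; exact hE3
    · rw [← h, isOfFinOrder_inv_iff]; exact hE3
  rcases (Subgroup.zpowers_eq_zpowers_iff hinf).1 (he.symm.trans he') with h | h
  · rw [h]; exact hx
  · rw [← h, disp_inv] at hx; exact hx

omit [IsomAct G V] in
theorem gen_ne_one {E : Ax G V δ} {e : G} (he : E.1 = Subgroup.zpowers e) : e ≠ 1 := by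
  obtain ⟨e0, hE1, hE2, hE3, -⟩ := E.2
  rintro rfl
  rw [Subgroup.zpowers_one_eq_bot] at he
  rw [he] at hE1
  apply hE3
  have : e0 ∈ (⊥ : Subgroup G) := by rw [hE1]; exact Subgroup.mem_zpowers e0
  rw [Subgroup.mem_bot.1 this]
  exact IsOfFinOrder.one

/-- if `γ` fixes the class of an apex then `γ ^ p = 1` -/
theorem pow_of_fix (J : JH G V δ ℓ A r p c K0 ρ R θ τ hρ hR) {g : G} {i : Ax G V δ}
    (h : g • i = i) : (QuotientGroup.mk g : G ⧸ (NN (fun E : Ax G V δ => HAx p δ E))) ^ p = 1 := by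
  rw [← QuotientGroup.mk_pow, QuotientGroup.eq_one_iff]
  have h1 : g ^ p ∈ HAx p δ i := (J.pow i (g ^ p)).2 ⟨g, (J.norm g i).1 h, rfl⟩
  exact Subgroup.subset_closure (Set.mem_iUnion.2 ⟨i, h1⟩)

theorem one_le_r (J : JH G V δ ℓ A r p c K0 ρ R θ τ hρ hR) : 1 ≤ r := by
  have e1 := J.hr
  have e2 : 1 ≤ 2 ^ ρ * R := Nat.mul_pos (Nat.two_pow_pos ρ) hR
  omega

/-- displacement far from apices -/
theorem disp_base {g : G} {v : Cone (axCone G V δ ρ R hρ hR)} {m : ℕ} (hv : d v (g • v) ≤ m)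
    (hfar : ∀ j, m < d v (Cone.apex (axCone G V δ ρ R hρ hR) j)) : ∃ x : V, d x (g • x) ≤ m * (2 ^ ρ * R) := by
  obtain ⟨x, hx⟩ := Cone.bs_nonempty (axCone G V δ ρ R hρ hR) v
  have hnx : g • x ∈ (g • v).Bs := by
    obtain ⟨z, hzv⟩ := v
    cases z with
    | base y => have h : x = y := hx; subst h; rfl
    | lev i y k => have h : x = y := hx; subst h; rfl
    | apex i => exact ConeAct.mem g i x hx
  exact ⟨x, Cone.avoid (axCone G V δ ρ R hρ hR) hv hfar hx hnx⟩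

/-- the angles along the axis of `g` are bounded -/
theorem angle_le (J : JH G V δ ℓ A r p c K0 ρ R θ τ hρ hR) {g : G} (hg1 : g ≠ 1)
    (hg : ∀ i : Ax G V δ, g • i ≠ i) {x : V} {D : ℕ} (hx : d x (g • x) ≤ D) (M : ℕ)
    (i : Ax G V δ) :
    prd ((axCone G V δ ρ R hρ hR).Y i) x (g ^ M • x) ≤ c * (D + 152 * δ + 36 * θ + A) + 8 * θ := by
  apply prd_le
  intro a b ha hb
  by_contra hlt
  push Not at hlt
  have hF := J.fam
  obtain ⟨z, hz, hza⟩ := ha.p5 hF.hyp hF.one_le (hF.qc i) hb (by omega)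
  obtain ⟨z', hz', hzb⟩ := hb.p5 hF.hyp hF.one_le (hF.qc i) ha (by rw [GMet.symm]; omega)
  have hyp := J.good.hyp
  have hcomm : g ^ M * g = g * g ^ M := (Commute.refl g).pow_left M
  have hy : d (g ^ M • x) (g • g ^ M • x) ≤ D := by rw [disp_comm hcomm]; exact hx
  have dz := hyp.l3 hx hy hz
  have dz' := hyp.l3 hx hy hz'.symm'
  have da : d a (g • a) ≤ D + 152 * δ + 36 * θ := by
    have := disp_lip g a z
    rw [GMet.symm a z] at this
    omega
  have db : d b (g • b) ≤ D + 152 * δ + 36 * θ := by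
    have := disp_lip g b z'
    rw [GMet.symm b z'] at this
    omega
  obtain ⟨e, he, hea⟩ := ha.1
  have heb : d b (e • b) ≤ 150 * δ := gen_disp he hb.1
  have hc := J.gac (D + 152 * δ + 36 * θ) g e hg1 (gen_ne_one he) a b da db (by omega) (by omega)
    (by omega)
  have hmem : g ∈ i.1 := by
    rw [← J.cent i e (by rw [he]; exact Subgroup.mem_zpowers e) (gen_ne_one he),
      Subgroup.mem_centralizer_singleton_iff]
    exact hc
  exact hg i ((J.norm g i).2 hmem)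

theorem dich' (J : JH G V δ ℓ A r p c K0 ρ R θ τ hρ hR) : ∀ γ : G ⧸ (NN (fun E : Ax G V δ => HAx p δ E)),
    (γ ^ p = 1 ∧ ∃ a : (QM (NN (fun E : Ax G V δ => HAx p δ E)) (Cone (axCone G V δ ρ R hρ hR))), ∀ k : ℕ, d a (γ ^ k • a) ≤ 1) ∨
    (∀ (a : (QM (NN (fun E : Ax G V δ => HAx p δ E)) (Cone (axCone G V δ ρ R hρ hR)))) (m : ℕ), m ≤ r * d a (γ ^ m • a)) := by
  intro γ
  -- case 1: some lift is elliptic
  by_cases h1 : ∃ g : G, QuotientGroup.mk g = γ ∧ g ^ p = 1 ∧ ∃ x : V, ∀ k : ℕ,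
      d x (g ^ k • x) ≤ 1
  · obtain ⟨g, rfl, hgp, x, hx⟩ := h1
    left
    refine ⟨by rw [← QuotientGroup.mk_pow, hgp]; rfl, QM.mk (NN (fun E : Ax G V δ => HAx p δ E)) (Cone.base (axCone G V δ ρ R hρ hR) x), fun k => ?_⟩
    rw [← QuotientGroup.mk_pow, QM.smul_mk, Cone.smul_base]
    refine (QM.d_mk_le (NN (fun E : Ax G V δ => HAx p δ E)) _ _).trans (Cone.base_le (axCone G V δ ρ R hρ hR) 1 _ _ ?_)
    have : 1 ≤ (axCone G V δ ρ R hρ hR).R := hR
    have := hx k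
    omega
  push Not at h1
  -- case 2: some lift fixes an apex
  by_cases h2 : ∃ g : G, QuotientGroup.mk g = γ ∧ ∃ i : Ax G V δ, g • i = i
  · obtain ⟨g, rfl, i, hi⟩ := h2
    left
    refine ⟨J.pow_of_fix hi, QM.mk (NN (fun E : Ax G V δ => HAx p δ E)) (Cone.apex (axCone G V δ ρ R hρ hR) i), fun k => ?_⟩
    have hk : g ^ k • i = i := by
      induction k with
      | zero => rw [pow_zero, one_smul]
      | succ k ih => rw [pow_succ, mul_smul, hi, ih]
    rw [← QuotientGroup.mk_pow, QM.smul_mk, Cone.smul_apex, hk, d_self]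
    omega
  push Not at h2
  -- case 3
  right
  have hδ := J.hδ
  have hr1 := J.one_le_r
  -- lifts are of infinite order
  have hdich : ∀ g : G, QuotientGroup.mk g = γ → ∀ (x : V) (m : ℕ), m ≤ r * d x (g ^ m • x) := by
    intro g hg
    rcases J.good.dich g with h | h
    · exfalso
      obtain ⟨h3, x, hx⟩ := h
      obtain ⟨k, hk⟩ := h1 g hg h3 x
      have := hx k
      omega
    · exact h
  have hnp : ∀ g : G, QuotientGroup.mk g = γ → g ^ p ≠ 1 := by
    intro g hg hgp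
    obtain ⟨x⟩ := J.good.ne
    have := hdich g hg x p
    rw [hgp, one_smul, d_self, mul_zero] at this
    have := J.hp.pos
    omega
  by_cases h3 : 6 * δ + 2 ≤ md (QM (NN (fun E : Ax G V δ => HAx p δ E)) (Cone (axCone G V δ ρ R hρ hR))) γ
  · intro a m
    have e1 := J.hyp'.l4 h3 a m
    have e2 : m * 1 ≤ m * (md (QM (NN (fun E : Ax G V δ => HAx p δ E)) (Cone (axCone G V δ ρ R hρ hR))) γ - 6 * δ) := Nat.mul_le_mul_left m (by omega)
    have e3 : 1 * d a (γ ^ m • a) ≤ r * d a (γ ^ m • a) := Nat.mul_le_mul_right _ hr1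
    omega
  · push Not at h3
    have hne : Nonempty (QM (NN (fun E : Ax G V δ => HAx p δ E)) (Cone (axCone G V δ ρ R hρ hR))) := by
      obtain ⟨x⟩ := J.good.ne
      exact ⟨QM.mk (NN (fun E : Ax G V δ => HAx p δ E)) (Cone.base (axCone G V δ ρ R hρ hR) x)⟩
    obtain ⟨b, hb⟩ := exists_md (V := (QM (NN (fun E : Ax G V δ => HAx p δ E)) (Cone (axCone G V δ ρ R hρ hR)))) γ
    obtain ⟨v, rfl⟩ := QM.mk_surj (NN (fun E : Ax G V δ => HAx p δ E)) b
    obtain ⟨g0, rfl⟩ := QuotientGroup.mk_surjective γ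
    obtain ⟨n, hn, hd⟩ := exists_n (hρ := hρ) (hR := hR) (p := p) v g0
    set g := n * g0 with hgdef
    have hgγ : (QuotientGroup.mk g : G ⧸ (NN (fun E : Ax G V δ => HAx p δ E))) = QuotientGroup.mk g0 := by
      rw [hgdef, QuotientGroup.mk_mul, (QuotientGroup.eq_one_iff n).2 hn, one_mul]
    have hgv : d v (g • v) ≤ 6 * δ + 1 := by
      rw [hgdef, mul_smul, hd, hb]; omega
    have hnofix : ∀ i : Ax G V δ, g • i ≠ i := h2 g hgγ
    have hρℓ := J.hρℓ
    have hℓ := J.hℓ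
    have hfar : ∀ j, ℓ + 2 * δ < d v (Cone.apex (axCone G V δ ρ R hρ hR) j) := by
      intro j
      by_contra hlt
      push Not at hlt
      exact hnofix j (fix_apex hgv (by omega))
    obtain ⟨x0, hx0⟩ := disp_base (m := ℓ + 2 * δ) (by omega : d v (g • v) ≤ ℓ + 2 * δ) hfar
    have hVne : Nonempty V := ⟨x0⟩
    obtain ⟨x, hx⟩ := exists_md (V := V) g
    have hxD : d x (g • x) ≤ (ℓ + 2 * δ) * (2 ^ ρ * R) := by
      rw [hx]; exact (md_le g x0).trans hx0
    have hgp : g ^ p ≠ 1 := hnp g hgγ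
    have hg1 : g ≠ 1 := by
      rintro h
      rw [h, one_pow] at hgp
      exact hgp rfl
    have hmd : 100 * δ < md V g := by
      by_contra hlt
      push Not at hlt
      obtain ⟨E, hE⟩ := J.small g hgp ⟨x, by rw [hx]; exact hlt⟩
      exact hnofix E ((J.norm g E).2 hE)
    have key : ∀ M : ℕ, M * 1 ≤ r * d (QM.mk (NN (fun E : Ax G V δ => HAx p δ E)) (Cone.base (axCone G V δ ρ R hρ hR) x))
        ((QuotientGroup.mk g0 : G ⧸ (NN (fun E : Ax G V δ => HAx p δ E))) ^ M • QM.mk (NN (fun E : Ax G V δ => HAx p δ E)) (Cone.base (axCone G V δ ρ R hρ hR) x)) + 0 := by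
      intro M
      have hang := fun i => J.angle_le hg1 hnofix hxD M i
      have e1 := Cone.d_le_of_angles' (axCone G V δ ρ R hρ hR) J.e2 x (g ^ M • x) hang
      have e2 := J.good.hyp.l4 (g := g) (by omega) x M
      have e3 : M * 1 ≤ M * (md V g - 6 * δ) := Nat.mul_le_mul_left M (by omega)
      -- distance in the quotient
      have e4 : d (Cone.base (axCone G V δ ρ R hρ hR) x) (Cone.base (axCone G V δ ρ R hρ hR) (g ^ M • x)) ≤ d (QM.mk (NN (fun E : Ax G V δ => HAx p δ E)) (Cone.base (axCone G V δ ρ R hρ hR) x))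
          ((QuotientGroup.mk g0 : G ⧸ (NN (fun E : Ax G V δ => HAx p δ E))) ^ M • QM.mk (NN (fun E : Ax G V δ => HAx p δ E)) (Cone.base (axCone G V δ ρ R hρ hR) x)) := by
        rw [← hgγ, ← QuotientGroup.mk_pow, QM.smul_mk, Cone.smul_base]
        obtain ⟨w, hw, hdw⟩ := QM.exists_tight (NN (fun E : Ax G V δ => HAx p δ E)) (Cone.base (axCone G V δ ρ R hρ hR) x)
          (QM.mk (NN (fun E : Ax G V δ => HAx p δ E)) (Cone.base (axCone G V δ ρ R hρ hR) (g ^ M • x)))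
        obtain ⟨n', hn', hn''⟩ := (QM.mk_eq_iff (NN (fun E : Ax G V δ => HAx p δ E))).1 hw.symm
        rw [← hdw, ← hn'', Cone.smul_base]
        refine J.sa x (g ^ M • x) (fun i => ?_) n' hn'
        have := hang i
        have := J.hτ2
        omega
      have e5 : d (Cone.base (axCone G V δ ρ R hρ hR) x) (Cone.base (axCone G V δ ρ R hρ hR) (g ^ M • x)) *
          (c * ((ℓ + 2 * δ) * (2 ^ ρ * R) + 152 * δ + 36 * θ + A) + 8 * θ +
            2 * (K0 * (2 ^ (axCone G V δ ρ R hρ hR).ρ * (axCone G V δ ρ R hρ hR).R)) + 2 ^ (axCone G V δ ρ R hρ hR).ρ * (axCone G V δ ρ R hρ hR).R) ≤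
          d (QM.mk (NN (fun E : Ax G V δ => HAx p δ E)) (Cone.base (axCone G V δ ρ R hρ hR) x))
          ((QuotientGroup.mk g0 : G ⧸ (NN (fun E : Ax G V δ => HAx p δ E))) ^ M • QM.mk (NN (fun E : Ax G V δ => HAx p δ E)) (Cone.base (axCone G V δ ρ R hρ hR) x)) * r :=
        Nat.mul_le_mul e4 J.hr
      rw [mul_comm r]
      omega
    intro a m
    have := stable key a m
    omega

end JH

end FrobP
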